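import Mathlib

/-!
# IEV: (I)-envelopes (MP_a5b52c_an), definitions and general lemmas

`wsHull`, `Ienv`, `IenvB` as in the hand-in.
-/

set_option autoImplicit false

open Filter Topology Set

namespace Pool.Agent.IEV

/-- The weak-star closed convex hull of a subset `B` of the dual space. -/
def wsHull {X : Type*} [NormedAddCommGroup X] [NormedSpace ℝ X] (B : Set (StrongDual ℝ X)) :
    Set (StrongDual ℝ X) :=
  StrongDual.toWeakDual ⁻¹' closure (convexHull ℝ (StrongDual.toWeakDual '' B))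

/-- The (I)-envelope of `A`: the intersection, over all countable covers `A = ⋃ n, c n`, of the
norm-closed convex hull of the union of the weak-star closed convex hulls of the `c n`. -/
def Ienv {X : Type*} [NormedAddCommGroup X] [NormedSpace ℝ X] (A : Set (StrongDual ℝ X)) :
    Set (StrongDual ℝ X) :=
  ⋂ (c : ℕ → Set (StrongDual ℝ X)) (_ : A = ⋃ n, c n),
    closure (convexHull ℝ (⋃ n, wsHull (c n)))

/-- The union over `n` of the (I)-envelopes of the bounded parts of `A`. -/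
def IenvB {X : Type*} [NormedAddCommGroup X] [NormedSpace ℝ X] (A : Set (StrongDual ℝ X)) :
    Set (StrongDual ℝ X) :=
  ⋃ n : ℕ, Ienv (A ∩ Metric.closedBall 0 (n : ℝ))

section general

variable {X : Type*} [NormedAddCommGroup X] [NormedSpace ℝ X]

theorem le_of_mem_wsHull {B : Set (StrongDual ℝ X)} {f : X} {c : ℝ} (h : ∀ a ∈ B, c ≤ a f)
    {a : StrongDual ℝ X} (ha : a ∈ wsHull B) : c ≤ a f := by
  have hcont : Continuous fun y : WeakDual ℝ X => y f := WeakDual.eval_continuous f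
  have hclosed : IsClosed {y : WeakDual ℝ X | c ≤ y f} := isClosed_le continuous_const hcont
  have hconv : Convex ℝ {y : WeakDual ℝ X | c ≤ y f} := by
    intro x hx y hy a b ha hb hab
    have hx' : c ≤ x f := hx
    have hy' : c ≤ y f := hy
    show c ≤ a * x f + b * y f
    calc c = a * c + b * c := by rw [← add_mul, hab, one_mul]
      _ ≤ a * x f + b * y f :=
        add_le_add (mul_le_mul_of_nonneg_left hx' ha) (mul_le_mul_of_nonneg_left hy' hb)
  have hsub : closure (convexHull ℝ (StrongDual.toWeakDual '' B)) ⊆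
      {y : WeakDual ℝ X | c ≤ y f} := by
    apply closure_minimal _ hclosed
    apply convexHull_min _ hconv
    rintro _ ⟨b, hb, rfl⟩
    exact h b hb
  exact hsub ha

theorem abs_le_of_mem_wsHull {B : Set (StrongDual ℝ X)} {f : X} {c : ℝ} (h : ∀ a ∈ B, |a f| ≤ c)
    {a : StrongDual ℝ X} (ha : a ∈ wsHull B) : |a f| ≤ c := by
  rw [abs_le]
  constructor
  · exact le_of_mem_wsHull (fun b hb => (abs_le.1 (h b hb)).1) ha
  · have h1 : -c ≤ a (-f) := by
      refine le_of_mem_wsHull (fun b hb => ?_) ha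
      rw [map_neg]
      have := (abs_le.1 (h b hb)).2
      linarith
    rw [map_neg] at h1
    linarith

/-- Separation of a point from the bounded part. -/
theorem far_of_cover {A : Set (StrongDual ℝ X)} {x0 : StrongDual ℝ X} {ψ : ℕ → X} {c : ℝ}
    (hψ : ∀ i, ‖ψ i‖ ≤ 1) (hx0 : ∀ i, |x0 (ψ i)| = 1)
    (hA : ∀ y ∈ A, ∃ j : ℕ, ∀ i ≥ j, |y (ψ i)| ≤ c) {z : StrongDual ℝ X} (hz : z ∈ Ienv A) :
    1 - c ≤ ‖x0 - z‖ := by
  let C : ℕ → Set (StrongDual ℝ X) := fun j => {y | y ∈ A ∧ ∀ i ≥ j, |y (ψ i)| ≤ c}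
  let K : Set (StrongDual ℝ X) := {φ | ∃ j : ℕ, ∀ i ≥ j, |φ (ψ i)| ≤ c}
  have hcov : A = ⋃ j, C j := by
    ext y
    rw [mem_iUnion]
    constructor
    · intro hy
      obtain ⟨j, hj⟩ := hA y hy
      exact ⟨j, hy, hj⟩
    · rintro ⟨j, hy, _⟩
      exact hy
  unfold Ienv at hz
  rw [mem_iInter₂] at hz
  have hz1 := hz C hcov
  have hK : Convex ℝ K := by
    rintro x ⟨j, hj⟩ y ⟨k, hk⟩ a b ha hb hab
    refine ⟨max j k, fun i hi => ?_⟩
    have h1 := hj i (le_trans (le_max_left _ _) hi)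
    have h2 := hk i (le_trans (le_max_right _ _) hi)
    have e : (a • x + b • y) (ψ i) = a * x (ψ i) + b * y (ψ i) := rfl
    rw [e]
    calc |a * x (ψ i) + b * y (ψ i)| ≤ |a * x (ψ i)| + |b * y (ψ i)| := abs_add_le _ _
      _ = a * |x (ψ i)| + b * |y (ψ i)| := by
          rw [abs_mul, abs_mul, abs_of_nonneg ha, abs_of_nonneg hb]
      _ ≤ a * c + b * c :=
          add_le_add (mul_le_mul_of_nonneg_left h1 ha) (mul_le_mul_of_nonneg_left h2 hb)
      _ = c := by rw [← add_mul, hab, one_mul]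
  have hsub : convexHull ℝ (⋃ n, wsHull (C n)) ⊆ K := by
    apply convexHull_min _ hK
    intro φ hφ
    rw [mem_iUnion] at hφ
    obtain ⟨j, hj⟩ := hφ
    exact ⟨j, fun i hi => abs_le_of_mem_wsHull (fun a ha => ha.2 i hi) hj⟩
  have hfar : K ⊆ {z : StrongDual ℝ X | 1 - c ≤ ‖x0 - z‖} := by
    rintro φ ⟨j, hj⟩
    have h1 := hj j le_rfl
    show 1 - c ≤ ‖x0 - φ‖
    have h2 : |(x0 - φ) (ψ j)| ≤ ‖x0 - φ‖ * ‖ψ j‖ := (x0 - φ).le_opNorm (ψ j)
    have h3 : (x0 - φ) (ψ j) = x0 (ψ j) - φ (ψ j) := rfl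
    have h4 : |x0 (ψ j)| - |φ (ψ j)| ≤ |x0 (ψ j) - φ (ψ j)| := abs_sub_abs_le_abs_sub _ _
    rw [hx0 j] at h4
    rw [h3] at h2
    have h5 : ‖x0 - φ‖ * ‖ψ j‖ ≤ ‖x0 - φ‖ := mul_le_of_le_one_right (norm_nonneg _) (hψ j)
    linarith
  have hcl : IsClosed {z : StrongDual ℝ X | 1 - c ≤ ‖x0 - z‖} :=
    isClosed_le continuous_const (continuous_const.sub continuous_id).norm
  exact closure_minimal (hsub.trans hfar) hcl hz1

end general

end Pool.Agent.IEV
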