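import Pool.Agent.IEV.Space

/-!
# IEV: the point `x0` is far from the (I)-envelopes of the bounded parts
-/

set_option autoImplicit false

open Filter Topology Set

namespace Pool.Agent.IEV

/-- the finite set of the first points of the sequence -/
def FF (N : ℕ) : Set unitInterval := qq '' (Finset.range N : Set ℕ)

theorem FF_closed (N : ℕ) : IsClosed (FF N) :=
  ((Finset.finite_toSet _).image _).isClosed

theorem FF_nonempty {N : ℕ} (hN : 1 ≤ N) : (FF N).Nonempty :=
  ⟨qq 0, 0, by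
    rw [Finset.mem_coe, Finset.mem_range]
    omega, rfl⟩

/-- the cut-off functions -/
noncomputable def gg (N i : ℕ) : C(unitInterval, ℝ) where
  toFun := fun t => min 1 ((i : ℝ) * Metric.infDist t (FF N) - 1)
  continuous_toFun := continuous_const.min
    ((continuous_const.mul (Metric.continuous_infDist_pt _)).sub continuous_const)

theorem gg_apply (N i : ℕ) (t : unitInterval) :
    gg N i t = min 1 ((i : ℝ) * Metric.infDist t (FF N) - 1) := rfl

theorem abs_gg_le (N i : ℕ) (t : unitInterval) : |gg N i t| ≤ 1 := by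
  rw [gg_apply, abs_le]
  refine ⟨le_min (by norm_num) ?_, min_le_left _ _⟩
  have h : 0 ≤ (i : ℝ) * Metric.infDist t (FF N) :=
    mul_nonneg (Nat.cast_nonneg _) Metric.infDist_nonneg
  linarith

theorem norm_gg_le (N i : ℕ) : ‖gg N i‖ ≤ 1 := by
  rw [ContinuousMap.norm_le _ zero_le_one]
  exact abs_gg_le N i

/-- the test vectors -/
noncomputable def ψ (N i : ℕ) : XX := mk (-1) (gg N i) 0

theorem norm_ψ_le (N i : ℕ) : ‖ψ N i‖ ≤ 1 := by
  apply norm_mk_le
  · norm_num
  · exact norm_gg_le N i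
  · rw [norm_zero]; exact zero_le_one

theorem x0_ψ (N i : ℕ) : |x0 (ψ N i)| = 1 := by
  have h : x0 (ψ N i) = -1 := rfl
  rw [h]
  norm_num

theorem pp_ψ (N i : ℕ) (t : unitInterval) : pp t (ψ N i) = -1 + gg N i t := rfl

theorem rr_ψ (N i : ℕ) (d : DD) : rr d (ψ N i) = -1 - gg N i (qq d.1) := by
  have h : rr d (ψ N i) = -1 - gg N i (qq d.1) + ((d.1 : ℝ) + 1) * 0 := rfl
  rw [h]
  ring

/-- the weights: `0` on the points, and on the pairs with small index -/
noncomputable def BB (N : ℕ) (c : Irr ⊕ DD →₀ ℝ) : Irr ⊕ DD → ℝ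
  | Sum.inl _ => 0
  | Sum.inr d => if N ≤ d.1 then |c (Sum.inr d)| else 0

theorem BB_nonneg (N : ℕ) (c : Irr ⊕ DD →₀ ℝ) (i : Irr ⊕ DD) : 0 ≤ BB N c i := by
  rcases i with t | d
  · exact le_refl _
  · show 0 ≤ (if N ≤ d.1 then |c (Sum.inr d)| else 0)
    split_ifs
    · exact abs_nonneg _
    · exact le_refl _

theorem eventually_ψ {N : ℕ} (hN : 1 ≤ N) (c : Irr ⊕ DD →₀ ℝ) (i : Irr ⊕ DD) :
    ∀ᶠ j : ℕ in atTop, |c i * GG i (ψ N j)| ≤ 2 * BB N c i := by
  rcases i with t | d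
  · have ht : t.1 ∉ FF N := by
      rintro ⟨k, _, hk⟩
      exact t.2 ⟨k, hk⟩
    have hpos := ((FF_closed N).notMem_iff_infDist_pos (FF_nonempty hN)).1 ht
    obtain ⟨J, hJ⟩ := exists_nat_gt (2 / Metric.infDist t.1 (FF N))
    filter_upwards [eventually_ge_atTop J] with j hj
    have h1 : 2 / Metric.infDist t.1 (FF N) < (j : ℝ) := lt_of_lt_of_le hJ (by exact_mod_cast hj)
    rw [div_lt_iff₀ hpos] at h1
    have h2 : gg N j t.1 = 1 := by
      rw [gg_apply]
      exact min_eq_left (by linarith)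
    have h3 : GG (Sum.inl t) (ψ N j) = 0 := by
      show pp t (ψ N j) = 0
      rw [pp_ψ, h2]
      norm_num
    rw [h3, mul_zero, abs_zero]
    exact mul_nonneg (by norm_num) (BB_nonneg N c _)
  · refine Eventually.of_forall fun j => ?_
    have h3 : GG (Sum.inr d) (ψ N j) = -1 - gg N j (qq d.1) := rr_ψ N j d
    rw [h3]
    by_cases hd : N ≤ d.1
    · have h4 : BB N c (Sum.inr d) = |c (Sum.inr d)| := if_pos hd
      rw [h4, abs_mul]
      have h5 : |-1 - gg N j (qq d.1)| ≤ 2 := by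
        have := abs_le.1 (abs_gg_le N j (qq d.1))
        rw [abs_le]
        constructor <;> linarith
      calc |c (Sum.inr d)| * |-1 - gg N j (qq d.1)| ≤ |c (Sum.inr d)| * 2 :=
            mul_le_mul_of_nonneg_left h5 (abs_nonneg _)
        _ = 2 * |c (Sum.inr d)| := mul_comm _ _
    · have h6 : qq d.1 ∈ FF N := ⟨d.1, by
        rw [Finset.mem_coe, Finset.mem_range]
        omega, rfl⟩
      have h7 : gg N j (qq d.1) = -1 := by
        rw [gg_apply, Metric.infDist_zero_of_mem h6]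
        norm_num
      rw [h7]
      have h8 : |c (Sum.inr d) * (-1 - -1)| = 0 := by norm_num
      rw [h8]
      exact mul_nonneg (by norm_num) (BB_nonneg N c _)

/-- the sign pattern -/
noncomputable def sgf (N : ℕ) (c : Irr ⊕ DD →₀ ℝ) (d : DD) : ℝ :=
  if N ≤ d.1 then SignType.sign (c (Sum.inr d)) else 0

theorem sgf_fin (N : ℕ) (c : Irr ⊕ DD →₀ ℝ) : {d | sgf N c d ≠ 0}.Finite := by
  have h : (Sum.inr ⁻¹' (c.support : Set (Irr ⊕ DD)) : Set DD).Finite :=
    c.support.finite_toSet.preimage Sum.inr_injective.injOn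
  refine h.subset fun d hd => ?_
  rw [mem_preimage, Finset.mem_coe, Finsupp.mem_support_iff]
  intro h0
  apply hd
  unfold sgf
  rw [h0]
  simp

theorem abs_sgf_le (N : ℕ) (c : Irr ⊕ DD →₀ ℝ) (d : DD) : |sgf N c d| ≤ 1 := by
  unfold sgf
  split_ifs
  · rcases lt_trichotomy (c (Sum.inr d)) 0 with h | h | h
    · rw [sign_neg h]; simp
    · rw [h]; simp
    · rw [sign_pos h]; simp
  · simp

/-- the test vector for the weights -/
noncomputable def χ (N : ℕ) (c : Irr ⊕ DD →₀ ℝ) : XX := mk 0 0 (fin0 (sgf N c) (sgf_fin N c))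

theorem norm_χ_le (N : ℕ) (c : Irr ⊕ DD →₀ ℝ) : ‖χ N c‖ ≤ 1 := by
  apply norm_mk_le
  · norm_num
  · rw [norm_zero]; exact zero_le_one
  · exact norm_fin0_le _ _ (abs_sgf_le N c)

theorem le_χ (N : ℕ) (c : Irr ⊕ DD →₀ ℝ) (i : Irr ⊕ DD) :
    ((N : ℝ) + 1) * BB N c i ≤ c i * GG i (χ N c) := by
  rcases i with t | d
  · have h : GG (Sum.inl t) (χ N c) = 0 + 0 := rfl
    have h1 : BB N c (Sum.inl t) = 0 := rfl
    rw [h, h1]
    simp
  · have h : GG (Sum.inr d) (χ N c) = 0 - 0 + ((d.1 : ℝ) + 1) * sgf N c d := rfl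
    rw [h]
    by_cases hd : N ≤ d.1
    · have h4 : BB N c (Sum.inr d) = |c (Sum.inr d)| := if_pos hd
      have h5 : sgf N c d = SignType.sign (c (Sum.inr d)) := if_pos hd
      have h6 : c (Sum.inr d) * (SignType.sign (c (Sum.inr d)) : ℝ) = |c (Sum.inr d)| :=
        self_mul_sign _
      rw [h4, h5]
      have h7 : c (Sum.inr d) * (0 - 0 + ((d.1 : ℝ) + 1) * (SignType.sign (c (Sum.inr d)) : ℝ))
          = ((d.1 : ℝ) + 1) * (c (Sum.inr d) * (SignType.sign (c (Sum.inr d)) : ℝ)) := by ring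
      rw [h7, h6]
      have h8 : (N : ℝ) ≤ (d.1 : ℝ) := by exact_mod_cast hd
      exact mul_le_mul_of_nonneg_right (by linarith) (abs_nonneg _)
    · have h4 : BB N c (Sum.inr d) = 0 := if_neg hd
      have h5 : sgf N c d = 0 := if_neg hd
      rw [h4, h5]
      simp

end Pool.Agent.IEV
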