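import Pool.Agent.IEV.Far

/-!
# IEV: the point `x0` is far from the (I)-envelopes of the bounded parts, conclusion
-/

set_option autoImplicit false

open Filter Topology Set

namespace Pool.Agent.IEV

theorem sum_apply' (c : Irr ⊕ DD →₀ ℝ) (x : XX) :
    (c.sum fun i a => a • GG i) x = ∑ i ∈ c.support, c i * GG i x := by
  unfold Finsupp.sum
  rw [ContinuousLinearMap.sum_apply]
  rfl

theorem bound_A0 {N : ℕ} (hN : 1 ≤ N) {y : StrongDual ℝ XX} (hy : y ∈ A0) {M : ℝ}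
    (hM : ‖y‖ ≤ M) : ∃ J : ℕ, ∀ j ≥ J, |y (ψ N j)| ≤ 2 * (M / ((N : ℝ) + 1)) := by
  unfold A0 at hy
  rw [Finsupp.mem_span_range_iff_exists_finsupp] at hy
  obtain ⟨c, hc⟩ := hy
  have hap : ∀ x, y x = ∑ i ∈ c.support, c i * GG i x := fun x => by
    rw [← hc]
    exact sum_apply' c x
  have hpos : (0 : ℝ) < (N : ℝ) + 1 := by positivity
  have h1 : ∑ i ∈ c.support, BB N c i ≤ M / ((N : ℝ) + 1) := by
    rw [le_div_iff₀ hpos, Finset.sum_mul]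
    calc ∑ i ∈ c.support, BB N c i * ((N : ℝ) + 1) ≤ ∑ i ∈ c.support, c i * GG i (χ N c) := by
          apply Finset.sum_le_sum
          intro i _
          rw [mul_comm]
          exact le_χ N c i
      _ = y (χ N c) := (hap _).symm
      _ ≤ ‖y (χ N c)‖ := le_abs_self _
      _ ≤ ‖y‖ * ‖χ N c‖ := y.le_opNorm _
      _ ≤ ‖y‖ * 1 := mul_le_mul_of_nonneg_left (norm_χ_le N c) (norm_nonneg _)
      _ ≤ M := by rw [mul_one]; exact hM
  have h2 : ∀ᶠ j : ℕ in atTop, ∀ i ∈ c.support, |c i * GG i (ψ N j)| ≤ 2 * BB N c i := by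
    rw [Filter.eventually_all_finset]
    intro i _
    exact eventually_ψ hN c i
  obtain ⟨J, hJ⟩ := eventually_atTop.1 h2
  refine ⟨J, fun j hj => ?_⟩
  rw [hap]
  calc |∑ i ∈ c.support, c i * GG i (ψ N j)| ≤ ∑ i ∈ c.support, |c i * GG i (ψ N j)| :=
        Finset.abs_sum_le_sum_abs _ _
    _ ≤ ∑ i ∈ c.support, 2 * BB N c i := Finset.sum_le_sum (hJ j hj)
    _ = 2 * ∑ i ∈ c.support, BB N c i := by rw [Finset.mul_sum]
    _ ≤ 2 * (M / ((N : ℝ) + 1)) := mul_le_mul_of_nonneg_left h1 (by norm_num)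

theorem bound_AA (n : ℕ) {y : StrongDual ℝ XX} (hy : y ∈ AA) (hn : ‖y‖ ≤ n) :
    ∃ J : ℕ, ∀ j ≥ J, |y (ψ (8 * (n + 1)) j)| ≤ 3 / 8 := by
  have hy' : y ∈ closure (A0 : Set (StrongDual ℝ XX)) := hy
  obtain ⟨y', hy1, hd⟩ := Metric.mem_closure_iff.1 hy' (1 / 8) (by norm_num)
  have hd' : ‖y - y'‖ < 1 / 8 := by rwa [dist_eq_norm] at hd
  have h1 : ‖y'‖ ≤ (n : ℝ) + 1 := by
    have e : y' = y - (y - y') := by abel
    rw [e]
    have := norm_sub_le y (y - y')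
    linarith
  obtain ⟨J, hJ⟩ := bound_A0 (N := 8 * (n + 1)) (by omega) hy1 h1
  refine ⟨J, fun j hj => ?_⟩
  have h2 := hJ j hj
  have h3 : 2 * (((n : ℝ) + 1) / (((8 * (n + 1) : ℕ) : ℝ) + 1)) ≤ 1 / 4 := by
    have hpos : (0 : ℝ) < ((8 * (n + 1) : ℕ) : ℝ) + 1 := by positivity
    rw [← mul_div_assoc, div_le_iff₀ hpos]
    push_cast
    have : (0 : ℝ) ≤ n := Nat.cast_nonneg n
    linarith
  have h4 : |(y - y') (ψ (8 * (n + 1)) j)| ≤ ‖y - y'‖ * ‖ψ (8 * (n + 1)) j‖ :=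
    (y - y').le_opNorm _
  have h5 : ‖y - y'‖ * ‖ψ (8 * (n + 1)) j‖ ≤ ‖y - y'‖ :=
    mul_le_of_le_one_right (norm_nonneg _) (norm_ψ_le _ j)
  have h6 : y (ψ (8 * (n + 1)) j) = y' (ψ (8 * (n + 1)) j) + (y - y') (ψ (8 * (n + 1)) j) := by
    show _ = y' (ψ (8 * (n + 1)) j) + (y (ψ (8 * (n + 1)) j) - y' (ψ (8 * (n + 1)) j))
    ring
  rw [h6]
  have h7 := abs_add_le (y' (ψ (8 * (n + 1)) j)) ((y - y') (ψ (8 * (n + 1)) j))
  linarith

theorem far_AA (n : ℕ) {z : StrongDual ℝ XX}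
    (hz : z ∈ Ienv ((AA : Set (StrongDual ℝ XX)) ∩ Metric.closedBall 0 (n : ℝ))) :
    1 / 2 ≤ ‖x0 - z‖ := by
  have h := far_of_cover (c := 3 / 8) (norm_ψ_le (8 * (n + 1))) (x0_ψ (8 * (n + 1)))
    (fun y hy => bound_AA n hy.1 (mem_closedBall_zero_iff.1 hy.2)) hz
  linarith

theorem x0_notMem : x0 ∉ closure (IenvB (AA : Set (StrongDual ℝ XX))) := by
  intro h
  have hcl : IsClosed {z : StrongDual ℝ XX | 1 / 2 ≤ ‖x0 - z‖} :=
    isClosed_le continuous_const (continuous_const.sub continuous_id).norm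
  have hsub : IenvB (AA : Set (StrongDual ℝ XX)) ⊆ {z : StrongDual ℝ XX | 1 / 2 ≤ ‖x0 - z‖} := by
    intro z hz
    unfold IenvB at hz
    rw [mem_iUnion] at hz
    obtain ⟨n, hn⟩ := hz
    exact far_AA n hn
  have h1 : 1 / 2 ≤ ‖x0 - x0‖ := closure_minimal hsub hcl h
  rw [sub_self, norm_zero] at h1
  norm_num at h1

end Pool.Agent.IEV
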