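import Pool.Agent.IEV.Defs

/-!
# IEV: the space and the functionals of the example
-/

set_option autoImplicit false

open Filter Topology Set

namespace Pool.Agent.IEV

/-- a discrete set, `ℕ × ℝ` -/
def DD : Type := ℕ × ℝ

instance : TopologicalSpace DD := ⊥

instance : DiscreteTopology DD := ⟨rfl⟩

/-- the space `ℝ ⊕ C([0,1]) ⊕ c₀(D)` with the maximum norm -/
def XX : Type := ℝ × (C(unitInterval, ℝ) × ZeroAtInftyContinuousMap DD ℝ)

noncomputable instance : NormedAddCommGroup XX :=
  inferInstanceAs (NormedAddCommGroup (ℝ × (C(unitInterval, ℝ) × ZeroAtInftyContinuousMap DD ℝ)))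

noncomputable instance : NormedSpace ℝ XX :=
  inferInstanceAs (NormedSpace ℝ (ℝ × (C(unitInterval, ℝ) × ZeroAtInftyContinuousMap DD ℝ)))

instance : CompleteSpace XX :=
  inferInstanceAs (CompleteSpace (ℝ × (C(unitInterval, ℝ) × ZeroAtInftyContinuousMap DD ℝ)))

/-- first coordinate -/
def c1 (x : XX) : ℝ := Prod.fst x

/-- second coordinate -/
def c2 (x : XX) : C(unitInterval, ℝ) := Prod.fst (Prod.snd x)

/-- third coordinate -/
def c3 (x : XX) : ZeroAtInftyContinuousMap DD ℝ := Prod.snd (Prod.snd x)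

/-- the element with given coordinates -/
def mk (a : ℝ) (f : C(unitInterval, ℝ)) (h : ZeroAtInftyContinuousMap DD ℝ) : XX := (a, (f, h))

theorem norm_mk (a : ℝ) (f : C(unitInterval, ℝ)) (h : ZeroAtInftyContinuousMap DD ℝ) :
    ‖mk a f h‖ = max ‖a‖ (max ‖f‖ ‖h‖) := rfl

theorem norm_mk_le {a : ℝ} {f : C(unitInterval, ℝ)} {h : ZeroAtInftyContinuousMap DD ℝ}
    (h1 : |a| ≤ 1) (h2 : ‖f‖ ≤ 1) (h3 : ‖h‖ ≤ 1) : ‖mk a f h‖ ≤ 1 := by
  rw [norm_mk]
  exact max_le h1 (max_le h2 h3)

theorem abs_c1_le (x : XX) : |c1 x| ≤ ‖x‖ := by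
  have h : ‖x‖ = max ‖c1 x‖ (max ‖c2 x‖ ‖c3 x‖) := rfl
  rw [h]
  exact le_max_left _ _

theorem norm_c2_le (x : XX) : ‖c2 x‖ ≤ ‖x‖ := by
  have h : ‖x‖ = max ‖c1 x‖ (max ‖c2 x‖ ‖c3 x‖) := rfl
  rw [h]
  exact le_trans (le_max_left _ _) (le_max_right _ _)

theorem norm_c3_le (x : XX) : ‖c3 x‖ ≤ ‖x‖ := by
  have h : ‖x‖ = max ‖c1 x‖ (max ‖c2 x‖ ‖c3 x‖) := rfl
  rw [h]
  exact le_trans (le_max_right _ _) (le_max_right _ _)

theorem abs_c2_le (x : XX) (t : unitInterval) : |c2 x t| ≤ ‖x‖ :=
  le_trans ((c2 x).norm_coe_le_norm t) (norm_c2_le x)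

theorem abs_apply_le (h : ZeroAtInftyContinuousMap DD ℝ) (d : DD) : |h d| ≤ ‖h‖ :=
  BoundedContinuousFunction.norm_coe_le_norm h.toBCF d

theorem abs_c3_le (x : XX) (d : DD) : |c3 x d| ≤ ‖x‖ :=
  le_trans (abs_apply_le _ d) (norm_c3_le x)

/-- a finitely supported function -/
noncomputable def fin0 (f : DD → ℝ) (hf : {d | f d ≠ 0}.Finite) : ZeroAtInftyContinuousMap DD ℝ where
  toFun := f
  continuous_toFun := continuous_of_discreteTopology
  zero_at_infty' := by
    rw [cocompact_eq_cofinite]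
    refine tendsto_const_nhds.congr' ?_
    have h := hf.compl_mem_cofinite
    filter_upwards [h] with d hd
    rw [mem_compl_iff, mem_setOf_eq, not_not] at hd
    exact hd.symm

theorem fin0_apply (f : DD → ℝ) (hf : {d | f d ≠ 0}.Finite) (d : DD) : fin0 f hf d = f d := rfl

theorem norm_fin0_le (f : DD → ℝ) (hf : {d | f d ≠ 0}.Finite) (h1 : ∀ d, |f d| ≤ 1) :
    ‖fin0 f hf‖ ≤ 1 := by
  show ‖(fin0 f hf).toBCF‖ ≤ 1
  rw [BoundedContinuousFunction.norm_le zero_le_one]
  exact h1

/-- a dense sequence in `[0,1]` -/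
noncomputable def qq (k : ℕ) : unitInterval := TopologicalSpace.denseSeq unitInterval k

/-- the functional `(a, f, h) ↦ a + f t` -/
noncomputable def pp (t : unitInterval) : StrongDual ℝ XX :=
  LinearMap.mkContinuous
    { toFun := fun x => c1 x + c2 x t
      map_add' := fun x y => by
        show (c1 x + c1 y) + (c2 x t + c2 y t) = _
        ring
      map_smul' := fun a x => by
        show a * c1 x + a * c2 x t = a * (c1 x + c2 x t)
        ring } 2 (fun x => by
        show |c1 x + c2 x t| ≤ _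
        have h1 := abs_add_le (c1 x) (c2 x t)
        have h2 := abs_c1_le x
        have h3 := abs_c2_le x t
        linarith)

theorem pp_apply (t : unitInterval) (x : XX) : pp t x = c1 x + c2 x t := rfl

/-- the functional `(a, f, h) ↦ a - f (q k) + (k + 1) h (k, s)` -/
noncomputable def rr (d : DD) : StrongDual ℝ XX :=
  LinearMap.mkContinuous
    { toFun := fun x => c1 x - c2 x (qq d.1) + ((d.1 : ℝ) + 1) * c3 x d
      map_add' := fun x y => by
        show (c1 x + c1 y) - (c2 x (qq d.1) + c2 y (qq d.1)) + ((d.1 : ℝ) + 1) * (c3 x d + c3 y d) = _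
        ring
      map_smul' := fun a x => by
        show a * c1 x - a * c2 x (qq d.1) + ((d.1 : ℝ) + 1) * (a * c3 x d) =
          a * (c1 x - c2 x (qq d.1) + ((d.1 : ℝ) + 1) * c3 x d)
        ring } (2 + ((d.1 : ℝ) + 1)) (fun x => by
        show |c1 x - c2 x (qq d.1) + ((d.1 : ℝ) + 1) * c3 x d| ≤ _
        have h1 := abs_add_le (c1 x - c2 x (qq d.1)) (((d.1 : ℝ) + 1) * c3 x d)
        have h1' := abs_sub (c1 x) (c2 x (qq d.1))
        have h2 := abs_c1_le x
        have h3 := abs_c2_le x (qq d.1)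
        have h4 := abs_c3_le x d
        have h5 : (0 : ℝ) ≤ (d.1 : ℝ) + 1 := by positivity
        have h6 : |((d.1 : ℝ) + 1) * c3 x d| ≤ ((d.1 : ℝ) + 1) * ‖x‖ := by
          rw [abs_mul, abs_of_nonneg h5]
          exact mul_le_mul_of_nonneg_left h4 h5
        linarith)

theorem rr_apply (d : DD) (x : XX) :
    rr d x = c1 x - c2 x (qq d.1) + ((d.1 : ℝ) + 1) * c3 x d := rfl

/-- the functional `(a, f, h) ↦ a - f (q k)` -/
noncomputable def uu (k : ℕ) : StrongDual ℝ XX :=
  LinearMap.mkContinuous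
    { toFun := fun x => c1 x - c2 x (qq k)
      map_add' := fun x y => by
        show (c1 x + c1 y) - (c2 x (qq k) + c2 y (qq k)) = _
        ring
      map_smul' := fun a x => by
        show a * c1 x - a * c2 x (qq k) = a * (c1 x - c2 x (qq k))
        ring } 2 (fun x => by
        show |c1 x - c2 x (qq k)| ≤ _
        have h1 := abs_sub (c1 x) (c2 x (qq k))
        have h2 := abs_c1_le x
        have h3 := abs_c2_le x (qq k)
        linarith)

theorem uu_apply (k : ℕ) (x : XX) : uu k x = c1 x - c2 x (qq k) := rfl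

/-- the functional `(a, f, h) ↦ a` -/
noncomputable def x0 : StrongDual ℝ XX :=
  LinearMap.mkContinuous
    { toFun := fun x => c1 x
      map_add' := fun _ _ => rfl
      map_smul' := fun _ _ => rfl } 1 (fun x => by
        show |c1 x| ≤ _
        rw [one_mul]
        exact abs_c1_le x)

theorem x0_apply (x : XX) : x0 x = c1 x := rfl

/-- the points outside of the sequence -/
abbrev Irr : Type := {t : unitInterval // t ∉ range qq}

/-- the generators -/
noncomputable def GG : Irr ⊕ DD → StrongDual ℝ XX := Sum.elim (fun t => pp t) rr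

/-- the linear span of the generators -/
noncomputable def A0 : Submodule ℝ (StrongDual ℝ XX) := Submodule.span ℝ (range GG)

/-- the closed linear span of the generators -/
noncomputable def AA : Submodule ℝ (StrongDual ℝ XX) := A0.topologicalClosure

end Pool.Agent.IEV
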