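import Pool.Agent.IEV.Far2

/-!
# IEV: a closed linear subspace `A` of a dual space for which the union of the (I)-envelopes of the
bounded parts is not norm-dense in the (I)-envelope of `A`
-/

set_option autoImplicit false

open Filter Topology Set

namespace Pool.Agent.IEV

/-- Baire: if countably many sets cover the points outside of the dense sequence, then the closure
of one of them contains a point of the sequence. -/
theorem exists_mem_closure (W : ℕ → Set unitInterval) (hW : ∀ t, t ∉ range qq → ∃ n, t ∈ W n) :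
    ∃ n k, qq k ∈ closure (W n) := by
  let f : ℕ ⊕ ℕ → Set unitInterval := Sum.elim (fun n => closure (W n)) (fun k => {qq k})
  have hf : ∀ i, IsClosed (f i) := by
    rintro (n | k)
    · exact isClosed_closure
    · exact isClosed_singleton
  have hcov : ⋃ i, f i = univ := by
    rw [eq_univ_iff_forall]
    intro t
    rw [mem_iUnion]
    by_cases ht : t ∈ range qq
    · obtain ⟨k, hk⟩ := ht
      exact ⟨Sum.inr k, hk.symm⟩
    · obtain ⟨n, hn⟩ := hW t ht
      exact ⟨Sum.inl n, subset_closure hn⟩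
  obtain ⟨i, hi⟩ := nonempty_interior_of_iUnion_of_closed hf hcov
  rcases i with n | k
  · obtain ⟨k, hk⟩ := (TopologicalSpace.denseRange_denseSeq unitInterval).exists_mem_open
      isOpen_interior hi
    exact ⟨n, k, interior_subset hk⟩
  · exfalso
    have h : interior ({qq k} : Set unitInterval) = ∅ := interior_singleton _
    have hi' : (interior ({qq k} : Set unitInterval)).Nonempty := hi
    rw [h] at hi'
    exact Set.not_nonempty_empty hi'

theorem pp_mem_wsHull {W : Set unitInterval} {B : Set (StrongDual ℝ XX)}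
    (hWB : ∀ t ∈ W, pp t ∈ B) {t : unitInterval} (ht : t ∈ closure W) : pp t ∈ wsHull B := by
  have hcont : Continuous fun t : unitInterval =>
      (StrongDual.toWeakDual (pp t) : WeakDual ℝ XX) := by
    apply WeakDual.continuous_of_continuous_eval
    intro x
    exact continuous_const.add (c2 x).continuous
  have h1 : MapsTo (fun t : unitInterval => (StrongDual.toWeakDual (pp t) : WeakDual ℝ XX)) W
      (convexHull ℝ (StrongDual.toWeakDual '' B)) := by
    intro s hs
    exact subset_convexHull ℝ _ (mem_image_of_mem _ (hWB s hs))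
  exact h1.closure hcont ht

theorem uu_mem_wsHull {k : ℕ} {S : Set ℝ} (hS : S.Infinite) {B : Set (StrongDual ℝ XX)}
    (hSB : ∀ s ∈ S, rr ((k, s) : ℕ × ℝ) ∈ B) : uu k ∈ wsHull B := by
  haveI : (cofinite ⊓ 𝓟 S).NeBot := hS.cofinite_inf_principal_neBot
  have ht : Tendsto (fun s : ℝ => (StrongDual.toWeakDual (rr ((k, s) : ℕ × ℝ)) : WeakDual ℝ XX))
      (cofinite ⊓ 𝓟 S) (𝓝 (StrongDual.toWeakDual (uu k))) := by
    rw [tendsto_iff_forall_eval_tendsto_topDualPairing]
    intro x
    have h1 : Tendsto (fun s : ℝ => c3 x ((k, s) : ℕ × ℝ)) cofinite (𝓝 0) := by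
      have h2 : Tendsto (c3 x) cofinite (𝓝 0) := by
        have := (c3 x).zero_at_infty'
        rwa [cocompact_eq_cofinite] at this
      have h3 : Function.Injective (fun s : ℝ => (((k, s) : ℕ × ℝ) : DD)) := by
        intro a b hab
        exact (Prod.ext_iff.1 hab).2
      exact h2.comp h3.tendsto_cofinite
    have h4 : Tendsto (fun s : ℝ => c1 x - c2 x (qq k) + ((k : ℝ) + 1) * c3 x ((k, s) : ℕ × ℝ))
        cofinite (𝓝 (c1 x - c2 x (qq k) + ((k : ℝ) + 1) * 0)) :=
      tendsto_const_nhds.add (tendsto_const_nhds.mul h1)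
    rw [mul_zero, add_zero] at h4
    exact h4.mono_left inf_le_left
  have hev : ∀ᶠ s in cofinite ⊓ 𝓟 S,
      (StrongDual.toWeakDual (rr ((k, s) : ℕ × ℝ)) : WeakDual ℝ XX) ∈
        convexHull ℝ (StrongDual.toWeakDual '' B) := by
    have h5 : S ∈ cofinite ⊓ 𝓟 S := mem_inf_of_right (mem_principal_self S)
    filter_upwards [h5] with s hs
    exact subset_convexHull ℝ _ (mem_image_of_mem _ (hSB s hs))
  have hfin : (StrongDual.toWeakDual (uu k) : WeakDual ℝ XX) ∈
      closure (convexHull ℝ (StrongDual.toWeakDual '' B)) := mem_closure_of_tendsto ht hev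
  exact hfin

theorem pp_mem_AA (t : unitInterval) (ht : t ∉ range qq) : pp t ∈ (AA : Set (StrongDual ℝ XX)) :=
  Submodule.le_topologicalClosure _ (Submodule.subset_span ⟨Sum.inl ⟨t, ht⟩, rfl⟩)

theorem rr_mem_AA (d : DD) : rr d ∈ (AA : Set (StrongDual ℝ XX)) :=
  Submodule.le_topologicalClosure _ (Submodule.subset_span ⟨Sum.inr d, rfl⟩)

theorem x0_mem : x0 ∈ Ienv (AA : Set (StrongDual ℝ XX)) := by
  unfold Ienv
  rw [mem_iInter₂]
  intro c hc
  apply subset_closure
  obtain ⟨n, k, hk⟩ := exists_mem_closure (fun n => {t | pp t ∈ c n}) (by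
    intro t ht
    have h := pp_mem_AA t ht
    rw [hc, mem_iUnion] at h
    exact h)
  have h1 : pp (qq k) ∈ convexHull ℝ (⋃ n, wsHull (c n)) :=
    subset_convexHull ℝ _ (mem_iUnion.2 ⟨n, pp_mem_wsHull (fun s hs => hs) hk⟩)
  obtain ⟨m, hm⟩ : ∃ m, {s : ℝ | rr ((k, s) : ℕ × ℝ) ∈ c m}.Infinite := by
    by_contra hcon
    push Not at hcon
    have hu : (univ : Set ℝ) = ⋃ m, {s : ℝ | rr ((k, s) : ℕ × ℝ) ∈ c m} := by
      symm
      rw [eq_univ_iff_forall]
      intro s
      have h := rr_mem_AA ((k, s) : ℕ × ℝ)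
      rw [hc, mem_iUnion] at h
      rw [mem_iUnion]
      exact h
    have hcount : (univ : Set ℝ).Countable := by
      rw [hu]
      exact countable_iUnion fun m => (hcon m).countable
    exact not_countable (α := ℝ) (countable_univ_iff.1 hcount)
  have h2 : uu k ∈ convexHull ℝ (⋃ n, wsHull (c n)) :=
    subset_convexHull ℝ _ (mem_iUnion.2 ⟨m, uu_mem_wsHull hm (fun s hs => hs)⟩)
  have h3 := (convex_convexHull ℝ (⋃ n, wsHull (c n))) h1 h2
    (a := 1 / 2) (b := 1 / 2) (by norm_num) (by norm_num) (by norm_num)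
  have h4 : (1 / 2 : ℝ) • pp (qq k) + (1 / 2 : ℝ) • uu k = x0 := by
    ext x
    show 1 / 2 * (c1 x + c2 x (qq k)) + 1 / 2 * (c1 x - c2 x (qq k)) = c1 x
    ring
  rwa [h4] at h3

/-- There are a real Banach space `X` and a norm-closed linear subspace `A` of its dual such that the
union of the (I)-envelopes of the bounded parts of `A` is not norm-dense in the (I)-envelope. -/
theorem main : ∃ (X : Type) (_ : NormedAddCommGroup X) (_ : NormedSpace ℝ X) (_ : CompleteSpace X)
    (A : Submodule ℝ (StrongDual ℝ X)), IsClosed (A : Set (StrongDual ℝ X)) ∧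
      ¬ (Ienv (A : Set (StrongDual ℝ X)) ⊆ closure (IenvB (A : Set (StrongDual ℝ X)))) :=
  ⟨XX, inferInstance, inferInstance, inferInstance, AA, Submodule.isClosed_topologicalClosure _,
    fun h => x0_notMem (h x0_mem)⟩

end Pool.Agent.IEV
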